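import Mathlib
import Pool.Agent.W777.DL.Avg
set_option autoImplicit false

/-!
# Stein's restriction conjecture on the sphere of `ℝ³` on average over dilations

Let `f` be a bounded Borel function on the plane. For `0 < lam < 1` let `dil lam f` be the density
on the unit sphere of `ℝ³` which is `f(x₁/lam, x₂/lam)` at the points `x` of the open upper
half sphere with `x₁² + x₂² < lam²`, and `0` elsewhere: the dilates of one bounded density on a cap.

In the full range `p > 3` of the conjecture the `p`-th power of the `L^p(ℝ³)` norm of the Fourier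
transform of `(dil lam f) dσ`, integrated over `lam` in `[a, b]`, is at most `C sup|f|^p`, for
`0 < a ≤ b < 1`, with `C` depending only on `p, a, b`.
-/

namespace Pool.Agent.Results.MP_6cbfb8_an.AveragedDilations

open MeasureTheory Set Metric Complex Filter
open scoped ENNReal NNReal RealInnerProductSpace Topology

/-- The Fourier transform of the measure `g dσ`, where `σ` is the surface measure of the unit
sphere of `ℝ³`: `ξ ↦ ∫ exp(-2πi x·ξ) g(x) dσ(x)`. -/
noncomputable def FT (g : EuclideanSpace ℝ (Fin 3) → ℂ) (ξ : EuclideanSpace ℝ (Fin 3)) : ℂ :=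
  ∫ x : sphere (0 : EuclideanSpace ℝ (Fin 3)) 1,
    cexp (-(2 * Real.pi * I) * ((⟪(x : EuclideanSpace ℝ (Fin 3)), ξ⟫ : ℝ) : ℂ)) * g x
      ∂(volume : Measure (EuclideanSpace ℝ (Fin 3))).toSphere

/-- The dilated density: `f(x₁/lam, x₂/lam)` if `x₃ > 0` and `x₁² + x₂² < lam²`, and `0`
otherwise. -/
noncomputable def dil (lam : ℝ) (f : EuclideanSpace ℝ (Fin 2) → ℂ)
    (x : EuclideanSpace ℝ (Fin 3)) : ℂ :=
  if 0 < x 2 ∧ x 0 ^ 2 + x 1 ^ 2 < lam ^ 2 then f !₂[x 0 / lam, x 1 / lam] else 0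

open Pool.Agent.W777.DL
open Pool.Agent.H789R2.FR (E sg)
open Pool.Agent.H153R4 (cube cube_vol)

lemma dil_eq {lam : ℝ} (h0 : 0 < lam) (f : E 2 → ℂ) (x : E 3) : dil lam f x = dens lam f x := by
  have h1 : ‖pr x‖ ^ 2 = x 0 ^ 2 + x 1 ^ 2 := by
    rw [EuclideanSpace.norm_sq_eq, Fin.sum_univ_two]
    have a0 : (pr x).ofLp 0 = x 0 := rfl
    have a1 : (pr x).ofLp 1 = x 1 := rfl
    rw [a0, a1, Real.norm_eq_abs, Real.norm_eq_abs, sq_abs, sq_abs]
  have h2 : (x 0 ^ 2 + x 1 ^ 2 < lam ^ 2) ↔ ‖pr x‖ < lam := by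
    rw [← h1]
    exact sq_lt_sq₀ (norm_nonneg _) h0.le
  have h3 : (!₂[x 0 / lam, x 1 / lam] : E 2) = lam⁻¹ • pr x := by
    ext i
    fin_cases i
    · change x 0 / lam = lam⁻¹ * x 0
      ring
    · change x 1 / lam = lam⁻¹ * x 1
      ring
  unfold dil dens
  rw [h3]
  simp only [h2]

lemma FT_eq {lam : ℝ} (h0 : 0 < lam) (f : E 2 → ℂ) (ξ : E 3) : FT (dil lam f) ξ = FD lam f ξ := by
  have hs : MeasurableSet (sphere (0 : E 3) 1) := isClosed_sphere.measurableSet
  unfold FT FD sg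
  rw [(MeasurableEmbedding.subtype_coe hs).integral_map]
  apply integral_congr_ae
  refine ae_of_all _ fun x => ?_
  simp only
  rw [dil_eq h0]
  congr 2
  push_cast
  ring

theorem result (p : ℝ) (hp : 3 < p) (a b : ℝ) (ha : 0 < a) (hab : a ≤ b) (hb : b < 1) :
    ∃ C : ℝ, ∀ (M : ℝ) (f : EuclideanSpace ℝ (Fin 2) → ℂ), Measurable f → (∀ z, ‖f z‖ ≤ M) →
      ∫⁻ lam in Icc a b, ∫⁻ ξ, ‖FT (dil lam f) ξ‖ₑ ^ p ≤ ENNReal.ofReal (C * M ^ p) := by
  obtain ⟨C, hC, h⟩ := FD_avg ha hab hb hp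
  refine ⟨C.toReal, fun M f hf hM => ?_⟩
  have hM0 : 0 ≤ M := (norm_nonneg _).trans (hM 0)
  have e1 : ENNReal.ofReal (C.toReal * M ^ p) = C * ENNReal.ofReal M ^ p := by
    rw [ENNReal.ofReal_mul ENNReal.toReal_nonneg, ENNReal.ofReal_toReal hC.ne,
      ENNReal.ofReal_rpow_of_nonneg hM0 (by linarith)]
  rw [e1]
  refine le_trans (le_of_eq ?_) (h M f hf hM)
  apply setLIntegral_congr_fun measurableSet_Icc
  intro lam hl
  have hl0 : 0 < lam := lt_of_lt_of_le ha hl.1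
  simp only [FT_eq hl0 f]

end Pool.Agent.Results.MP_6cbfb8_an.AveragedDilations
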